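import Pool.Agent.H502.EC.A13

/-!
# MP_94f623_nt: for large image a nonzero class with few trace identities gives an eigenform

Let `K` be a number field (in the problem: imaginary quadratic of class number one), `p ≥ 5` a prime, `k`
an algebraically closed field of characteristic `p` and `𝔑 ≠ 0` a level. We use the following properties
of the space `V = H¹(Y₀(𝔑), k)` (`IsHeckeModule`; `bad` is the set of the places dividing `p 𝔑`): it
is of finite dimension, the Hecke operators `T_v`, `v ∤ p 𝔑`, commute; `V = H¹(Y₀(𝔑), 𝔽_p) ⊗ k` and the
Frobenius of `k` induces a semilinear automorphism of `V` which commutes with the Hecke operators; and to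
each system `(a_v)` of eigenvalues in `V` belongs a representation `σ : G_K → GL₂(k)` with
`Tr σ(Frob_v) = a_v` and `det σ(Frob_v) = N(v)`, by the theorem of Scholze.

Let `F` be a field with `q` elements contained in `k` and `ρ : G_K → GL₂(k)` a continuous representation
with `det ρ(Frob_v) = N(v)` for `v ∤ p 𝔑` and with large image over `F`: up to scalars the image contains
`SL₂(F)` and is contained in `GL₂(F)`. By Dickson's theorem every irreducible `ρ` is of this kind, for
some `F` and in some basis, except if its projective image is solvable or isomorphic to `A₅` (the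
latter is no exception if `F = 𝔽₅` is possible).

**Result.** Let `c ≠ 0` be ANY class in `V` (not necessarily an eigenform) such that

  `T_v c = Tr(ρ(Frob_v)) c` for a set of primes `v` of upper density greater than `1 / (q - 1)`.

Then there are a quadratic or trivial character `ε` of `G_K` and an eigenform `c' ∈ V` which satisfies
ALL the identities `T_v c' = Tr((ρ ⊗ ε)(Frob_v)) c'`, `v ∤ p 𝔑`. If the upper density is greater than
`q / (2 (q - 1))`, this holds with `ε = 1`.

So the conclusion of Q1 holds for `ρ` with large image if (and only if) a nonzero class of level `𝔑`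
satisfies the identity of Q1 for slightly more than half of the primes; and if it satisfies the identity
for more than the proportion `1 / (q - 1)` of the primes, which is small for large `q`, a quadratic twist
of `ρ` occurs in the level `𝔑`.

Proof. The space `W` of the classes which satisfy the given identities is stable under all Hecke operators
and contains a simultaneous eigenvector; let `σ` be its representation. The traces of `σ` and `ρ` agree
on more than the proportion `1 / (q - 1)` of the elements of a finite quotient of `G_K`. A given trace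
occurs in a coset of `SL₂(F)` with at most this proportion, hence `ρ(ker σ)` does not contain `SL₂(F)` up
to scalars, and by Goursat's lemma, the simplicity of `PSL₂(F)` and the knowledge of its
two-dimensional projective representations over `k` one has `σ ≅ χ ⊗ ρ^τ` for a power `τ` of the
Frobenius and a character `χ`. The determinants show `χ² = 1`, and `τ` is removed by means of the
semilinear automorphism of `V`. For densities greater than `q / (2 (q - 1))` also `χ` and `τ` are trivial.
-/

set_option autoImplicit false

open NumberField IsDedekindDomain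

namespace Pool.Agent.Results.MP_94f623_nt.LargeImageFewPrimes

/-- The absolute Galois group. -/
abbrev Gal (K : Type) [Field K] : Type := AlgebraicClosure K ≃ₐ[K] AlgebraicClosure K

variable {K : Type} [Field K] [NumberField K]

/-- `x` is a Frobenius element at the place `v`: `x(y) ≡ y ^ N(v)` modulo `Q` for all algebraic integers
`y`, for some maximal ideal `Q` above `v`. -/
def IsFrobenius (v : HeightOneSpectrum (𝓞 K)) (x : Gal K) : Prop :=
  ∃ Q : Ideal (𝓞 (AlgebraicClosure K)), Q.IsMaximal ∧
    Q.comap (algebraMap (𝓞 K) (𝓞 (AlgebraicClosure K))) = v.asIdeal ∧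
    ∀ y : 𝓞 (AlgebraicClosure K), x • y - y ^ (Ideal.absNorm v.asIdeal) ∈ Q

/-- The upper density of the set `S` of places is greater than `c`: for some `δ > c` there are
arbitrarily large `N` such that the proportion of the elements of `S` among the places of norm at most
`N` is at least `δ`. -/
def UpperDensityGreater (S : Set (HeightOneSpectrum (𝓞 K))) (c : ℝ) : Prop :=
  ∃ δ > c, ∀ M : ℕ, ∃ N ≥ M,
    δ * ({v : HeightOneSpectrum (𝓞 K) | Ideal.absNorm v.asIdeal ≤ N}.ncard : ℝ) ≤
      ({v : HeightOneSpectrum (𝓞 K) | v ∈ S ∧ Ideal.absNorm v.asIdeal ≤ N}.ncard : ℝ)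

variable {k : Type*} [Field k]

/-- The image of `ρ` is large over the field `F`, embedded in `k` by `ι`: up to scalars of `k` it
contains `SL₂(F)`, and up to scalars of `k` it is contained in `GL₂(F)`. -/
def LargeImage {F : Type*} [Field F] (ι : F →+* k) (ρ : Gal K →* GL (Fin 2) k) : Prop :=
  (∀ B : Matrix (Fin 2) (Fin 2) F, B.det = 1 → ∃ (x : Gal K) (c : k), (ρ x).val = c • B.map ι) ∧
    ∀ x : Gal K, ∃ (c : k) (A : GL (Fin 2) F), (ρ x).val = c • A.val.map ι

/-- The continuous representation `σ` is attached to the system `a` of eigenvalues: at the places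
outside `bad` the traces of the Frobenius elements are the `a v`, and the determinants the norms. -/
def Attached (bad : Set (HeightOneSpectrum (𝓞 K))) (a : HeightOneSpectrum (𝓞 K) → k)
    (σ : Gal K →* GL (Fin 2) k) : Prop :=
  IsOpen (σ.ker : Set (Gal K)) ∧ ∀ v ∉ bad, ∀ x, IsFrobenius v x →
    (σ x).val.trace = a v ∧ (σ x).val.det = (Ideal.absNorm v.asIdeal : k)

variable {V : Type*} [AddCommGroup V] [Module k V]

/-- The operators `T v`, `v` outside `bad`, commute with each other and with a bijective semilinear map
`φ`, `φ(a c) = a ^ p φ(c)` (they are defined over `𝔽_p`), and a representation is attached to each of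
their systems of eigenvalues (for the cohomology of `Y₀(𝔑)`: the theorem of Scholze). -/
structure IsHeckeModule (p : ℕ) (bad : Set (HeightOneSpectrum (𝓞 K)))
    (T : HeightOneSpectrum (𝓞 K) → V →ₗ[k] V) : Prop where
  commute : ∀ v ∉ bad, ∀ w ∉ bad, ∀ c, T v (T w c) = T w (T v c)
  frobenius : ∃ φ : V ≃+ V, (∀ (a : k) (c : V), φ (a • c) = a ^ p • φ c) ∧
    ∀ v ∉ bad, ∀ c, T v (φ c) = φ (T v c)
  attached : ∀ c : V, c ≠ 0 → ∀ a : HeightOneSpectrum (𝓞 K) → k, (∀ v ∉ bad, T v c = a v • c) →
    ∃ σ, Attached bad a σ

/-- The set of the places `v` outside `bad` at which `T_v c = Tr(ρ(Frob_v)) c`. -/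
def Identities (bad : Set (HeightOneSpectrum (𝓞 K)))
    (T : HeightOneSpectrum (𝓞 K) → V →ₗ[k] V) (ρ : Gal K →* GL (Fin 2) k) (c : V) :
    Set (HeightOneSpectrum (𝓞 K)) :=
  {v | v ∉ bad ∧ ∃ x, IsFrobenius v x ∧ T v c = (ρ x).val.trace • c}

/-- **Main theorem.** Let `ρ` have large image over the field `F` with `q` elements and determinant `N(v)`
at the Frobenius elements. If the identities hold for a nonzero class `c` at a set of places of upper
density greater than `1 / (q - 1)`, then all the identities for `ρ ⊗ ε` hold for a nonzero class `c'`,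
for a character `ε` with values `± 1`; and `ε = 1` if the upper density is greater than
`q / (2 (q - 1))`. -/
theorem result (K : Type) [Field K] [NumberField K] (p : ℕ) (hp : p.Prime) (h5 : 5 ≤ p)
    (k : Type*) [Field k] [IsAlgClosed k] [CharP k p]
    (V : Type*) [AddCommGroup V] [Module k V] [FiniteDimensional k V]
    (bad : Set (HeightOneSpectrum (𝓞 K))) (hbad : bad.Finite)
    (T : HeightOneSpectrum (𝓞 K) → V →ₗ[k] V) (hT : IsHeckeModule p bad T)
    (F : Type*) [Field F] [Fintype F] [CharP F p] (ι : F →+* k)
    (ρ : Gal K →* GL (Fin 2) k) (hρ : IsOpen (ρ.ker : Set (Gal K))) (hL : LargeImage ι ρ)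
    (hdet : ∀ v ∉ bad, ∀ x, IsFrobenius v x → (ρ x).val.det = (Ideal.absNorm v.asIdeal : k))
    (c : V) (hc : c ≠ 0)
    (hdens : UpperDensityGreater (Identities bad T ρ c) ((1 : ℝ) / (Fintype.card F - 1))) :
    ∃ ε : Gal K →* ℤˣ, IsOpen (ε.ker : Set (Gal K)) ∧
      (UpperDensityGreater (Identities bad T ρ c)
        ((Fintype.card F : ℝ) / (2 * (Fintype.card F - 1))) → ε = 1) ∧
      ∃ c' : V, c' ≠ 0 ∧ ∀ v ∉ bad, ∀ x, IsFrobenius v x →
        T v c' = ((((ε x : ℤˣ) : ℤ) : k) * (ρ x).val.trace) • c' := by
  haveI : Fact p.Prime := ⟨hp⟩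
  obtain ⟨φ, hφ, hφT⟩ := hT.frobenius
  exact Pool.Agent.H502.EC.hecke_large h5 ⟨hL.1, hL.2⟩ hρ bad hbad hdet T hT.commute φ hφ hφT
    hT.attached hc hdens

end Pool.Agent.Results.MP_94f623_nt.LargeImageFewPrimes
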